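import Pool.Agent.BWG.APAll

/-!
# Bounded width for `SL_n(Λ)`, `Λ` an Azumaya algebra of prime degree over `ℤ[1/N]`, `n ≥ 3`:
# all pairs of opposite parabolic subgroups

For every prime `ℓ` and every `n ≥ 3` there is one number `L n` such that for all `N`, all Azumaya
algebras `Λ` of degree `ℓ` over `R = ℤ[1/N]` (ramified or not) and ALL pairs `P`, `P⁻` of opposite
proper parabolic subgroups of `SL_n(Λ)` the elementary subgroup, generated by the unipotent
radicals `U_P` and `U_P⁻`, is the whole group of matrices of reduced norm one and is equal to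
`(U_P U_P⁻)^(L n)`. If the pair comes from a decomposition of `Λ^n` into free summands of rank one
then the exponent can be chosen independently of `n` as well.

A pair of opposite parabolic subgroups of `SL_n(Λ)` is the same as a decomposition
`Λ^n = M₁ ⊕ ⋯ ⊕ M_k` into non-zero (projective, not necessarily free) right submodules, that is a
complete system `e₁, …, e_k` of non-zero orthogonal idempotents of `M_n(Λ)` with its order: `P` is
the stabilizer of the flag `M₁ ⊂ M₁ ⊕ M₂ ⊂ ⋯`, and `P⁻` of the opposite one.

* `BWG.IsAzumaya ℓ N R Λ`: `Λ` is free of rank `ℓ²` over `R = ℤ[1/N]` and its fibre at every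
  prime `p` not dividing `N` is the matrix algebra `M_ℓ(𝔽_p)`.
* `BWG.SL1 ℓ N n Λ`: the matrices of reduced norm one.
* `BW.AP.Rad e`: the units `X` such that `e_i (X - 1) e_j = 0` unless `i < j`, the unipotent
  radical of `P`; `BW.AP.RadOp e`: the units `X` such that `e_i (X - 1) e_j = 0` unless `j < i`.

Proof for odd `ℓ`. Everything is reduced to one statement about the product ring `P = ∏ Λ_i` of an
arbitrary family: a `2 x 2` matrix `A` over `P` of reduced norm one is elementary in `GL₃(P)`.
(1) `A^(ℓ²)` is stably elementary: the matrices `diag(a, …, a)` and the left regular representation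
`L(a)` are conjugate by a fixed matrix, and `SL_m(∏ ℤ[1/N_i])` is elementary. (2) Over the generic
fibre `D = ∏ D_i` the matrix `diag(A, …, A)` with `(ℓ-1)!` blocks is stably elementary (stable
range one and Wang's theorem with a bounded number of factors). (3) Localization theorem: a matrix
over `P` which is elementary over `D` is elementary over `P`. The Steinberg group of the
completion `M_ℓ(𝔸)` acts on `E_k(D)/E_k(P)`; all its symbols fix the base point, which is reduced
to matrices `(m, b; *, *)` with `m` central in `GL₂(P)`; these are elementary by Dirichlet's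
theorem and an argument in `∏ GL_ℓ(𝔽_p)`; a word with trivial matrix and trivial symbols is
trivial (big cell argument over a product of fields). (4) Since `ℓ²` is prime to `(ℓ-1)!`, `A` is
stably elementary, and injective stability (Vaserstein) for rings of stable range two gives the
claim. Then stable range reduces `GL_n` to `GL₂`, and the other parabolic subgroups are treated as
in degree two (strong approximation for lattices). The case `ℓ = 2` is `BW.main`.
-/

namespace Pool.Agent.Results.MP_5f9d62_al.PrimeDegreeSLn

open Matrix Pointwise BWG BW.AP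

theorem result : ∀ ℓ : ℕ, ℓ.Prime →
    ∃ (L₀ : ℕ) (L : ℕ → ℕ), ∀ n : ℕ, 3 ≤ n → ∀ N : ℕ, N ≠ 0 → ∀ (R Λ : Type)
    [CommRing R] [Ring Λ] [Algebra R Λ] [IsLocalization.Away (N : ℤ) R],
    IsAzumaya ℓ N R Λ →
    ∀ (k : ℕ) (e : Fin k → Matrix (Fin n) (Fin n) Λ), 2 ≤ k →
      CompleteOrthogonalIdempotents e → (∀ i, e i ≠ 0) →
        Subgroup.closure (Rad e ∪ RadOp e) = SL1 ℓ N (Fin n) Λ ∧
        (Rad e * RadOp e) ^ L n = (SL1 ℓ N (Fin n) Λ : Set (Matrix (Fin n) (Fin n) Λ)ˣ) ∧
        ((∃ (g : (Matrix (Fin n) (Fin n) Λ)ˣ) (σ : Fin k ≃ Fin n),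
          ∀ i, e i = g.val * Matrix.single (σ i) (σ i) 1 * (g⁻¹).val) →
            (Rad e * RadOp e) ^ L₀ =
              (SL1 ℓ N (Fin n) Λ : Set (Matrix (Fin n) (Fin n) Λ)ˣ)) :=
  fun _ hℓ => BWG.main_all hℓ

end Pool.Agent.Results.MP_5f9d62_al.PrimeDegreeSLn
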