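import Pool.Agent.BWP.Main

/-!
# Bounded width for quaternion-hermitian groups over `ℤ[1/N]` (type `C`), relative rank `≥ 2`:
# all pairs of opposite parabolic subgroups

For all `m ≥ 2` and `s` there is one number `L m s` such that for all `N`, all Azumaya algebras `Λ`
of degree two without zero divisors over `R = ℤ[1/N]` with the canonical involution, all unimodular
hermitian forms `D` of rank `s` over `Λ` and ALL pairs `P`, `P⁻` of opposite proper parabolic
subgroups of the isometry group `G` of `V = H^m ⊥ D` the elementary subgroup, generated by the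
unipotent radicals `U_P` and `U_P⁻`, is all of `G(R)` and is equal to `(U_P U_P⁻)^(L m s)`.

A pair of opposite parabolic subgroups of `G` is a decomposition `V = V_1 ⊕ ⋯ ⊕ V_l` into
(projective, not necessarily free, possibly zero) right submodules such that `V_i` is orthogonal to
`V_j` unless `j = l + 1 - i`, that is a complete system `e_1, …, e_l` of orthogonal idempotents of
`M_(2m+s)(Λ)` such that the adjoint of `e_i` is `e_(l+1-i)`: `P` is the stabilizer of the flag
`V_1 ⊂ V_1 ⊕ V_2 ⊂ ⋯`, and `P⁻` of the opposite one. `P` is proper if some `V_i` with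
`i ≠ l + 1 - i` is not zero.

`BW.IsQuaternionAzumaya N R Λ`: `Λ` is free of rank four over `R = ℤ[1/N]` and its fibre at every
prime `p` not dividing `N` is the matrix algebra `M₂(𝔽_p)`.

Proof. In a product of infinitely many algebras: a unimodular vector of `V` can be moved such
that its first half is unimodular (stable range, Chinese remainder theorem), which removes `D`; then
transitivity on unimodular isotropic vectors removes all planes but one. In one plane every isometry
becomes `(r, *; c, *)` with `r` central and `c` pure. The class of `(p, *; c, *)`, `p` prime, only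
depends on the class of `c` modulo `p` and `c ↦ w* c w`; it is trivial by Dirichlet's theorem and
quadratic reciprocity. Two planes: the Carter-Keller argument for the matrices `diag(A, A*⁻¹)`.
All parabolic subgroups: if `V_1` has rank one then the hyperbolic lines of the isotropic vectors of
`V_2 ⊕ ⋯ ⊕ V_(l-1)` and Serre's unimodular element argument give a free hyperbolic pair whose two
unipotent radicals lie in a bounded power of `U_P U_P⁻`; all free hyperbolic pairs are conjugate.
-/

namespace Pool.Agent.Results.MP_5f9d62_al.QuaternionHermitian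

open Matrix Pointwise

section Definitions

variable {Λ : Type} [Ring Λ] [StarRing Λ] {m s : ℕ}

/-- the index set of the basis `e_1, …, e_m, f_1, …, f_m, v_1, …, v_s` -/
abbrev Ix (m s : ℕ) : Type := (Fin m ⊕ Fin m) ⊕ Fin s

/-- the Gram matrix `[[0, 1, 0], [1, 0, 0], [0, 0, D]]` of `H^m ⊥ D` -/
def gram (m : ℕ) (D : Matrix (Fin s) (Fin s) Λ) : Matrix (Ix m s) (Ix m s) Λ :=
  Matrix.fromBlocks (Matrix.fromBlocks 0 1 1 0) 0 0 D

/-- the group `G(R)` of isometries of `H^m ⊥ D`: the invertible `g` with `g* J g = J`, `J` the Gram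
matrix -/
def G (m : ℕ) (D : Matrix (Fin s) (Fin s) Λ) : Subgroup (Matrix (Ix m s) (Ix m s) Λ)ˣ where
  carrier := {g | g.valᴴ * gram m D * g.val = gram m D}
  one_mem' := by simp
  mul_mem' := fun {g h} hg hh => by
    have hg' : g.valᴴ * gram m D * g.val = gram m D := hg
    have hh' : h.valᴴ * gram m D * h.val = gram m D := hh
    change (g.val * h.val)ᴴ * gram m D * (g.val * h.val) = gram m D
    calc _ = h.valᴴ * (g.valᴴ * gram m D * g.val) * h.val := by
          rw [Matrix.conjTranspose_mul]; simp only [Matrix.mul_assoc]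
      _ = _ := by rw [hg', hh']
  inv_mem' := fun {g} hg => by
    have hg' : g.valᴴ * gram m D * g.val = gram m D := hg
    change (g⁻¹.val)ᴴ * gram m D * g⁻¹.val = gram m D
    have h1 : g.val * g⁻¹.val = 1 := by rw [← Units.val_mul, mul_inv_cancel, Units.val_one]
    have h2 : (g⁻¹.val)ᴴ * g.valᴴ = 1 := by
      rw [← Matrix.conjTranspose_mul, h1, Matrix.conjTranspose_one]
    calc (g⁻¹.val)ᴴ * gram m D * g⁻¹.val
        = (g⁻¹.val)ᴴ * (g.valᴴ * gram m D * g.val) * g⁻¹.val := by rw [hg']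
      _ = ((g⁻¹.val)ᴴ * g.valᴴ) * gram m D * (g.val * g⁻¹.val) := by simp only [Matrix.mul_assoc]
      _ = _ := by rw [h1, h2, Matrix.one_mul, Matrix.mul_one]

/-- `e_1, …, e_l` is the system of idempotents of a decomposition `H^m ⊥ D = V_1 ⊕ ⋯ ⊕ V_l` with
`V_i` orthogonal to `V_j` unless `j = rev i = l + 1 - i`, and `V_i` is not zero for some
`i ≠ rev i` -/
structure IsOpposite (D : Matrix (Fin s) (Fin s) Λ) {l : ℕ}
    (e : Fin l → Matrix (Ix m s) (Ix m s) Λ) : Prop where
  complete : CompleteOrthogonalIdempotents e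
  adjoint : ∀ i, (e i)ᴴ * gram m D = gram m D * e (Fin.rev i)
  proper : ∃ i, e i ≠ 0 ∧ Fin.rev i ≠ i

/-- the unipotent radical `U_P` of the stabilizer `P` of the flag `V_1 ⊂ V_1 ⊕ V_2 ⊂ ⋯`: the
isometries `g` with `e_i (g - 1) e_j = 0` unless `i < j` -/
def Rad (D : Matrix (Fin s) (Fin s) Λ) {l : ℕ} (e : Fin l → Matrix (Ix m s) (Ix m s) Λ) :
    Set (Matrix (Ix m s) (Ix m s) Λ)ˣ :=
  {g | g ∈ G m D ∧ ∀ i j, ¬ i < j → e i * (g.val - 1) * e j = 0}

/-- the unipotent radical `U_P⁻` of the opposite parabolic subgroup: the isometries `g` with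
`e_i (g - 1) e_j = 0` unless `j < i` -/
def RadOp (D : Matrix (Fin s) (Fin s) Λ) {l : ℕ} (e : Fin l → Matrix (Ix m s) (Ix m s) Λ) :
    Set (Matrix (Ix m s) (Ix m s) Λ)ˣ :=
  {g | g ∈ G m D ∧ ∀ i j, ¬ j < i → e i * (g.val - 1) * e j = 0}

end Definitions

section Comparison

variable {Λ : Type} [Ring Λ] {m s : ℕ}

theorem gram_eq (D : Matrix (Fin s) (Fin s) Λ) : gram m D = BWC.JG 1 (Fin m) D := by
  rw [gram, BWC.JG, BWC.J, one_smul]

variable [StarRing Λ]

theorem G_eq (D : Matrix (Fin s) (Fin s) Λ) : G m D = BWC.isom (BWC.JG 1 (Fin m) D) := by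
  ext g
  change g.valᴴ * gram m D * g.val = gram m D ↔ _
  rw [gram_eq, BWC.mem_isom]

theorem Rad_eq (D : Matrix (Fin s) (Fin s) Λ) {l : ℕ} (e : Fin l → Matrix (Ix m s) (Ix m s) Λ) :
    Rad D e = BWP.Rad (BWC.JG 1 (Fin m) D) e := by
  ext g
  change g ∈ G m D ∧ _ ↔ g ∈ BWC.isom (BWC.JG 1 (Fin m) D) ∧ _
  rw [G_eq]

theorem RadOp_eq (D : Matrix (Fin s) (Fin s) Λ) {l : ℕ} (e : Fin l → Matrix (Ix m s) (Ix m s) Λ) :
    RadOp D e = BWP.Rad (BWC.JG 1 (Fin m) D) fun i => e (Fin.rev i) := by
  ext g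
  change g ∈ G m D ∧ _ ↔ g ∈ BWC.isom (BWC.JG 1 (Fin m) D) ∧ _
  rw [G_eq]
  refine and_congr_right fun _ => ⟨fun h i j hij => h _ _ fun h' => hij ?_, fun h i j hij => ?_⟩
  · exact Fin.rev_lt_rev.1 h'
  · have := h (Fin.rev i) (Fin.rev j) fun h' => hij (Fin.rev_lt_rev.1 h')
    simpa only [Fin.rev_rev] using this

end Comparison

theorem result : ∃ L : ℕ → ℕ → ℕ, ∀ m s : ℕ, 2 ≤ m → ∀ N : ℕ, N ≠ 0 → ∀ (R Λ : Type) [CommRing R]
    [IsLocalization.Away (N : ℤ) R] [Ring Λ] [StarRing Λ] [Algebra R Λ],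
    BW.IsQuaternionAzumaya N R Λ → (∀ x : Λ, ∃ t : R, x + star x = algebraMap R Λ t) →
    (∀ x y : Λ, x * y = 0 → x = 0 ∨ y = 0) →
    ∀ D : Matrix (Fin s) (Fin s) Λ, Dᴴ = D → IsUnit D →
    ∀ (l : ℕ) (e : Fin l → Matrix (Ix m s) (Ix m s) Λ), IsOpposite D e →
      Subgroup.closure (Rad D e ∪ RadOp D e) = G m D ∧
      (Rad D e * RadOp D e) ^ L m s = (G m D : Set (Matrix (Ix m s) (Ix m s) Λ)ˣ) := by
  choose! L hL using BWP.all_parabolics
  refine ⟨L, fun m s hm N hN R Λ _ _ _ _ _ haz hst hdm D hD hDu l e he => ?_⟩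
  have h := hL m s hm N hN R Λ haz hst hdm D hD hDu l e he.complete
    (fun i => by rw [← gram_eq]; exact he.adjoint i) he.proper
  rw [← Rad_eq, ← RadOp_eq, ← G_eq] at h
  refine ⟨le_antisymm ((Subgroup.closure_le _).2 ?_) fun g hg => ?_, h⟩
  · rintro g (hg | hg)
    · exact hg.1
    · exact hg.1
  · have h1 : g ∈ (Rad D e * RadOp D e) ^ L m s := by rw [h]; exact hg
    have h2 : ∀ n : ℕ, (Rad D e * RadOp D e) ^ n ⊆
        (Subgroup.closure (Rad D e ∪ RadOp D e) : Set (Matrix (Ix m s) (Ix m s) Λ)ˣ) := by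
      intro n
      induction n with
      | zero =>
        rw [pow_zero]
        rintro _ rfl
        exact one_mem _
      | succ n ih =>
        rw [pow_succ]
        rintro _ ⟨x, hx, _, ⟨y, hy, z, hz, rfl⟩, rfl⟩
        exact mul_mem (ih hx) (mul_mem (Subgroup.subset_closure (Or.inl hy))
          (Subgroup.subset_closure (Or.inr hz)))
    exact h2 _ h1

end Pool.Agent.Results.MP_5f9d62_al.QuaternionHermitian
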