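import Pool.Agent.BWF.PMain

/-!
# Bounded width for quaternion-skew-hermitian groups over `ℤ[1/N]` (type `D`), relative rank `≥ 2`:
# all pairs of opposite parabolic subgroups

For all `m ≥ 2` and `s` there is one number `L m s` such that for all `N`, all Azumaya algebras `Λ`
of degree two without zero divisors over `R = ℤ[1/N]` with the canonical involution, all even
unimodular skew-hermitian forms `D = A - A*` of rank `s` over `Λ` and ALL pairs `P`, `P⁻` of
opposite proper parabolic subgroups of the isometry group `G` of `V = H^m ⊥ D` the group generated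
by the unipotent radicals `U_P` and `U_P⁻` is one and the same subgroup `E(R)` of `G(R)`, it
contains the squares of all elements of `G(R)`, and it is equal to `(U_P U_P⁻)^(L m s)`.

A pair of opposite parabolic subgroups of `G` is a decomposition `V = V_1 ⊕ ⋯ ⊕ V_l` into
(projective, not necessarily free, possibly zero) right submodules such that `V_i` is orthogonal to
`V_j` unless `j = l + 1 - i`, that is a complete system `e_1, …, e_l` of orthogonal idempotents of
`M_(2m+s)(Λ)` such that the adjoint of `e_i` is `e_(l+1-i)`: `P` is the stabilizer of the flag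
`V_1 ⊂ V_1 ⊕ V_2 ⊂ ⋯`, and `P⁻` of the opposite one. `P` is proper if some `V_i` with
`i ≠ l + 1 - i` is not zero.

`BW.IsQuaternionAzumaya N R Λ`: `Λ` is free of rank four over `R = ℤ[1/N]` and its fibre at every
prime `p` not dividing `N` is the matrix algebra `M₂(𝔽_p)`.

Proof. In a product of infinitely many algebras (a family of isometries at once): a unimodular
vector of `V` can be moved such that its first half is unimodular, which removes `D`; the
hyperbolic planes are removed until two are left, and there the second column is completed to a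
matrix of reduced norm one. Matrices of reduced norm one in the Levi subgroup `GL₂(Λ)` of two
planes are elementary (normality, Dirichlet's theorem and the argument of Carter and Keller for
`SL₂(ℤ)` in a plane). What is left is the reduced norm of an element of `GL₂(Λ)` modulo squares; it
is detected by the spinor norms at the residue fields, which are signs of permutations of quadrics
over `𝔽_p`. So `E` of a product of algebras is the product of the groups `E` and contains all
families of unipotent isometries. All parabolic subgroups: a free hyperbolic pair whose two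
unipotent radicals lie in a bounded power of `U_P U_P⁻` is found as for type `C`.
-/

namespace Pool.Agent.Results.MP_5f9d62_al.QuaternionSkewHermitian

open Matrix Pointwise

section Definitions

variable {Λ : Type} [Ring Λ] [StarRing Λ] {m s : ℕ}

/-- the index set of the basis `e_1, …, e_m, f_1, …, f_m, v_1, …, v_s` -/
abbrev Ix (m s : ℕ) : Type := (Fin m ⊕ Fin m) ⊕ Fin s

/-- the Gram matrix `[[0, 1, 0], [-1, 0, 0], [0, 0, D]]` of `H^m ⊥ D` -/
def gram (m : ℕ) (D : Matrix (Fin s) (Fin s) Λ) : Matrix (Ix m s) (Ix m s) Λ :=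
  Matrix.fromBlocks (Matrix.fromBlocks 0 1 (-1) 0) 0 0 D

/-- the group `G(R)` of isometries of `H^m ⊥ D`: the invertible `g` with `g* J g = J`, `J` the Gram
matrix -/
def G (m : ℕ) (D : Matrix (Fin s) (Fin s) Λ) : Subgroup (Matrix (Ix m s) (Ix m s) Λ)ˣ where
  carrier := {g | g.valᴴ * gram m D * g.val = gram m D}
  one_mem' := by simp
  mul_mem' := fun {g h} hg hh => by
    have hg' : g.valᴴ * gram m D * g.val = gram m D := hg
    have hh' : h.valᴴ * gram m D * h.val = gram m D := hh
    change (g.val * h.val)ᴴ * gram m D * (g.val * h.val) = gram m D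
    calc _ = h.valᴴ * (g.valᴴ * gram m D * g.val) * h.val := by
          rw [Matrix.conjTranspose_mul]; simp only [Matrix.mul_assoc]
      _ = _ := by rw [hg', hh']
  inv_mem' := fun {g} hg => by
    have hg' : g.valᴴ * gram m D * g.val = gram m D := hg
    change (g⁻¹.val)ᴴ * gram m D * g⁻¹.val = gram m D
    have h1 : g.val * g⁻¹.val = 1 := by rw [← Units.val_mul, mul_inv_cancel, Units.val_one]
    have h2 : (g⁻¹.val)ᴴ * g.valᴴ = 1 := by
      rw [← Matrix.conjTranspose_mul, h1, Matrix.conjTranspose_one]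
    calc (g⁻¹.val)ᴴ * gram m D * g⁻¹.val
        = (g⁻¹.val)ᴴ * (g.valᴴ * gram m D * g.val) * g⁻¹.val := by rw [hg']
      _ = ((g⁻¹.val)ᴴ * g.valᴴ) * gram m D * (g.val * g⁻¹.val) := by simp only [Matrix.mul_assoc]
      _ = _ := by rw [h1, h2, Matrix.one_mul, Matrix.mul_one]

/-- `e_1, …, e_l` is the system of idempotents of a decomposition `H^m ⊥ D = V_1 ⊕ ⋯ ⊕ V_l` with
`V_i` orthogonal to `V_j` unless `j = rev i = l + 1 - i`, and `V_i` is not zero for some
`i ≠ rev i` -/
structure IsOpposite (D : Matrix (Fin s) (Fin s) Λ) {l : ℕ}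
    (e : Fin l → Matrix (Ix m s) (Ix m s) Λ) : Prop where
  complete : CompleteOrthogonalIdempotents e
  adjoint : ∀ i, (e i)ᴴ * gram m D = gram m D * e (Fin.rev i)
  proper : ∃ i, e i ≠ 0 ∧ Fin.rev i ≠ i

/-- the unipotent radical `U_P` of the stabilizer `P` of the flag `V_1 ⊂ V_1 ⊕ V_2 ⊂ ⋯`: the
isometries `g` with `e_i (g - 1) e_j = 0` unless `i < j` -/
def Rad (D : Matrix (Fin s) (Fin s) Λ) {l : ℕ} (e : Fin l → Matrix (Ix m s) (Ix m s) Λ) :
    Set (Matrix (Ix m s) (Ix m s) Λ)ˣ :=
  {g | g ∈ G m D ∧ ∀ i j, ¬ i < j → e i * (g.val - 1) * e j = 0}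

/-- the unipotent radical `U_P⁻` of the opposite parabolic subgroup: the isometries `g` with
`e_i (g - 1) e_j = 0` unless `j < i` -/
def RadOp (D : Matrix (Fin s) (Fin s) Λ) {l : ℕ} (e : Fin l → Matrix (Ix m s) (Ix m s) Λ) :
    Set (Matrix (Ix m s) (Ix m s) Λ)ˣ :=
  {g | g ∈ G m D ∧ ∀ i j, ¬ j < i → e i * (g.val - 1) * e j = 0}

/-- the elementary subgroup `E(R)`, generated by `U_P` and `U_P⁻` -/
def Elem (D : Matrix (Fin s) (Fin s) Λ) {l : ℕ} (e : Fin l → Matrix (Ix m s) (Ix m s) Λ) :
    Subgroup (Matrix (Ix m s) (Ix m s) Λ)ˣ :=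
  Subgroup.closure (Rad D e ∪ RadOp D e)

end Definitions

section Comparison

variable {Λ : Type} [Ring Λ] {m s : ℕ}

theorem gram_eq (D : Matrix (Fin s) (Fin s) Λ) : gram m D = BWC.JG (-1) (Fin m) D := by
  rw [gram, BWC.JG, BWC.J, neg_one_zsmul]

variable [StarRing Λ]

theorem G_eq (D : Matrix (Fin s) (Fin s) Λ) : G m D = BWC.isom (BWC.JG (-1) (Fin m) D) := by
  ext g
  change g.valᴴ * gram m D * g.val = gram m D ↔ _
  rw [gram_eq, BWC.mem_isom]

theorem Rad_eq (D : Matrix (Fin s) (Fin s) Λ) {l : ℕ} (e : Fin l → Matrix (Ix m s) (Ix m s) Λ) :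
    Rad D e = BWP.Rad (BWC.JG (-1) (Fin m) D) e := by
  ext g
  change g ∈ G m D ∧ _ ↔ g ∈ BWC.isom (BWC.JG (-1) (Fin m) D) ∧ _
  rw [G_eq]

theorem RadOp_eq (D : Matrix (Fin s) (Fin s) Λ) {l : ℕ} (e : Fin l → Matrix (Ix m s) (Ix m s) Λ) :
    RadOp D e = BWP.Rad (BWC.JG (-1) (Fin m) D) fun i => e (Fin.rev i) := by
  ext g
  change g ∈ G m D ∧ _ ↔ g ∈ BWC.isom (BWC.JG (-1) (Fin m) D) ∧ _
  rw [G_eq]
  refine and_congr_right fun _ => ⟨fun h i j hij => h _ _ fun h' => hij ?_, fun h i j hij => ?_⟩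
  · exact Fin.rev_lt_rev.1 h'
  · have := h (Fin.rev i) (Fin.rev j) fun h' => hij (Fin.rev_lt_rev.1 h')
    simpa only [Fin.rev_rev] using this

end Comparison

theorem result : ∃ L : ℕ → ℕ → ℕ, ∀ m s : ℕ, 2 ≤ m → ∀ N : ℕ, N ≠ 0 → ∀ (R Λ : Type) [CommRing R]
    [IsLocalization.Away (N : ℤ) R] [Ring Λ] [StarRing Λ] [Algebra R Λ],
    BW.IsQuaternionAzumaya N R Λ → (∀ x : Λ, ∃ t : R, x + star x = algebraMap R Λ t) →
    (∀ x y : Λ, x * y = 0 → x = 0 ∨ y = 0) →
    ∀ A D : Matrix (Fin s) (Fin s) Λ, D = A - Aᴴ → IsUnit D →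
    ∃ E : Subgroup (Matrix (Ix m s) (Ix m s) Λ)ˣ, (∀ g ∈ G m D, g ^ 2 ∈ E) ∧
      ∀ (l : ℕ) (e : Fin l → Matrix (Ix m s) (Ix m s) Λ), IsOpposite D e →
        Elem D e = E ∧ (Rad D e * RadOp D e) ^ L m s = (E : Set (Matrix (Ix m s) (Ix m s) Λ)ˣ) := by
  choose! L hL using BWF.all_parabolicsD
  refine ⟨L, fun m s hm N hN R Λ _ _ _ _ _ haz hst hdm A D hD hA => ?_⟩
  subst hD
  have : NoZeroDivisors Λ := ⟨fun {x y} h => hdm x y h⟩
  obtain ⟨E, -, h2, h3⟩ := hL m s hm N hN R Λ haz hst A hA
  rw [← G_eq] at h2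
  refine ⟨E, h2, fun l e he => ?_⟩
  have h := h3 l e he.complete (fun i => by rw [← gram_eq]; exact he.adjoint i) he.proper
  rw [← Rad_eq, ← RadOp_eq] at h
  exact h

end Pool.Agent.Results.MP_5f9d62_al.QuaternionSkewHermitian
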